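import Mathlib
import Pool.Agent.Helper61.FR.St.P12

/-!
# Diffusive rigidity (project DF): definitions

Everything is on top of `Pool.Agent.Helper61.FR.Defs` (`e`, `avg`, `cnt`, `nbhd`, `pr`, `ent`,
`Profile`, `Inv23`, `dev`) and of `cf` from `Pool.Agent.Helper61.FR.St.P12`.
-/

set_option autoImplicit false

open MeasureTheory Finset

namespace Helper75.DF

open Pool.Agent.Helper61.FR

/-- truncated mass of the distribution on the intervals of length `1 / D` -/
noncomputable def Sm (p : ℕ → ℕ → ℝ) (t : ℝ) (D : ℕ) : ℝ := ∑ a ∈ range D, min (p D a) t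

/-- bound for the exponential sums over `2 ^ q` consecutive powers of `3` with odd numerators and
denominator `2 ^ k` -/
def WB (q k : ℕ) (η : ℝ) : Prop :=
  ∀ d : ℤ, Odd d → ‖∑ j ∈ range (2 ^ q), e (d * 3 ^ j / 2 ^ k)‖ ≤ η * 2 ^ q

/-- the exponential sums with denominators `2 ^ k`, `4 ≤ k ≤ W q`, are small -/
def Window (W : ℕ → ℕ) : Prop :=
  ∀ η : ℝ, 0 < η → ∃ q₀ : ℕ, ∀ q, q₀ ≤ q → ∀ k, 4 ≤ k → k ≤ W q → WB q k η

/-- number of `j < N` with `z j` in the fattened difference set of the thin set given by `U` -/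
noncomputable def hits (r : ℕ) (U : Finset ℕ) (N : ℕ) (z : ℕ → ℝ) : ℕ :=
  open Classical in
  ((range N).filter fun j => ∃ u ∈ U, ∃ u' ∈ U, ∃ w : ℤ,
    |z j - w - ((u' : ℝ) - u) / 2 ^ r| ≤ 2 / 2 ^ r).card

/-- typical points: at least `7 / 8` of the points `3 ^ j x`, `j < 2 ^ q`, are in the thin set -/
def Typ (r : ℕ) (U : Finset ℕ) (q : ℕ) : Set ℝ :=
  {x | 7 * 2 ^ q ≤ 8 * cnt 1 (2 ^ q) (nbhd r U) x}

/-- size of the correlation of the character of frequency `m` along `×3` at time `b` -/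
noncomputable def cb (μ : Measure ℝ) (m b : ℕ) : ℝ :=
  ‖cf μ (m * (3 ^ b - 1)) - (‖cf μ m‖ ^ 2 : ℝ)‖

/-- `ℓ²`-energy along the residue classes modulo `p` -/
noncomputable def Rp (c : ℂ) (m N p : ℕ) (x : ℝ) : ℝ :=
  (p / N ^ 2 : ℝ) * ∑ a ∈ range p,
    ‖∑ j ∈ (range N).filter (fun j => j % p = a), (e (m * (3 ^ j * x)) - c)‖ ^ 2

end Helper75.DF
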