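import Mathlib
import Pool.Agent.Helper75.DF.Defs
import Pool.Agent.Helper61.FR.Core
import Pool.Agent.Helper75.DF.St.D9
import Pool.Agent.Helper75.DF.St.D10
import Pool.Agent.Helper75.DF.St.D13
import Pool.Agent.Helper75.DF.St.D14

/-!
# Diffusive rigidity of `×2, ×3`-invariant measures
-/

set_option autoImplicit false

open MeasureTheory Finset Filter

namespace Helper75.DF

open Pool.Agent.Helper61.FR

/-- Deviations of the `×3`-averages of all characters of order `1 / N`, and the absolute sums of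
the correlations of one character of order `N ^ (1 - κ)`, force Lebesgue measure. -/
theorem core_diffusive_gen {μ : Measure ℝ} (h : Inv23 μ) (h0 : ∀ x, μ {x} = 0)
    (hdev : ∀ m : ℕ, 1 ≤ m → ∀ η : ℝ, 0 < η → ∃ C : ℝ, ∀ q : ℕ,
      μ.real (dev μ 1 (2 ^ q) m η) ≤ C / 2 ^ q)
    (hcor : ∃ m₀ : ℕ, 1 ≤ m₀ ∧ ∃ D κ : ℝ, 0 < κ ∧ ∀ N : ℕ, 1 ≤ N →
      ∑ b ∈ range N, cb μ m₀ b ≤ D * (N : ℝ) ^ (1 - κ))
    (m : ℕ) (hm : 1 ≤ m) : ∫ y, e (m * y) ∂μ = 0 := by
  by_contra hφ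
  have := h.prob
  have hφ0 := norm_pos_iff.mpr hφ
  -- zero entropy
  have hW : Tendsto (fun q : ℕ => μ.real (dev μ 1 (2 ^ q) m (‖∫ y, e (m * y) ∂μ‖ / 4))) atTop
      (nhds 0) := by
    obtain ⟨C, hC⟩ := hdev m hm (‖∫ y, e (m * y) ∂μ‖ / 4) (by positivity)
    have h1 : Tendsto (fun q : ℕ => C * (1 / 2 : ℝ) ^ q) atTop (nhds 0) := by
      simpa using (tendsto_pow_atTop_nhds_zero_of_lt_one (r := (1 / 2 : ℝ)) (by norm_num)
        (by norm_num)).const_mul C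
    refine squeeze_zero (fun _ => measureReal_nonneg) (fun q => (hC q).trans (le_of_eq ?_)) h1
    rw [div_pow, one_pow]
    ring
  obtain ⟨s, hs, hent⟩ := exists_small_entropy h (fun _ => 1)
    (fun q hq => ⟨le_rfl, by omega⟩) m hm hφ hW
  obtain ⟨U, -, hUc, hUm⟩ := exists_thin (profile_pr h) s hs hent
  obtain ⟨S, η, hη, hS1, hSt⟩ := typical h (20 * s) U hUm
  -- deviations from typicality
  choose! C hC using fun m (hm : 1 ≤ m) => hdev m hm η hη
  have hb : ∀ q, μ.real (Typ (20 * s) U q)ᶜ ≤ (∑ m ∈ S, C m) / 2 ^ q := by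
    intro q
    have h1 : (Typ (20 * s) U q)ᶜ ⊆ ⋃ m ∈ S, dev μ 1 (2 ^ q) m η := by
      intro x hx
      by_contra h2
      apply hx
      have h3 := hSt 1 (2 ^ q) le_rfl Nat.one_le_two_pow x (by
        intro m hm h4
        apply h2
        exact Set.mem_biUnion (x := m) hm h4)
      rw [one_mul] at h3
      exact h3
    calc μ.real (Typ (20 * s) U q)ᶜ ≤ μ.real (⋃ m ∈ S, dev μ 1 (2 ^ q) m η) :=
          measureReal_mono h1 (measure_ne_top μ _)
      _ ≤ ∑ m ∈ S, μ.real (dev μ 1 (2 ^ q) m η) := measureReal_biUnion_finset_le _ _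
      _ ≤ ∑ m ∈ S, C m / 2 ^ q := sum_le_sum fun m hm => hC m (hS1 m hm) q
      _ = _ := by rw [sum_div]
  obtain ⟨C₁, hC₁⟩ := scale_ent h (20 * s) U hUc _ hb
  obtain ⟨θ, hθ⟩ := few_cells (profile_pr h) C₁ (16 * ∑ m ∈ S, C m) hC₁
    (fun c hc => scale_trunc h (20 * s) U hUc _ hb c hc) (1 / 20) (by norm_num)
  obtain ⟨m₀, hm₀, D, κ, hκ, hD⟩ := hcor
  exact false_of_few h m₀ (norm_cf_lt_one h h0 m₀ hm₀) D κ hκ hD θ hθ

/-- A Bessel type version: variances of the `×3`-averages of order `1 / N`. -/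
theorem core_diffusive_var {μ : Measure ℝ} (h : Inv23 μ) (h0 : ∀ x, μ {x} = 0)
    (hV : ∀ m : ℕ, 1 ≤ m → ∃ C : ℝ, ∀ N : ℕ, 1 ≤ N →
      ∫ x, ‖avg 1 N (fun y => e (m * y)) x - ∫ y, e (m * y) ∂μ‖ ^ 2 ∂μ ≤ C / N)
    (hcor : ∃ m₀ : ℕ, 1 ≤ m₀ ∧ ∃ D κ : ℝ, 0 < κ ∧ ∀ N : ℕ, 1 ≤ N →
      ∑ b ∈ range N, cb μ m₀ b ≤ D * (N : ℝ) ^ (1 - κ))
    (m : ℕ) (hm : 1 ≤ m) : ∫ y, e (m * y) ∂μ = 0 := by
  refine core_diffusive_gen h h0 (fun m hm η hη => ?_) hcor m hm
  obtain ⟨C, hC⟩ := hV m hm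
  refine ⟨C / η ^ 2, fun q => ?_⟩
  have h1 := hC (2 ^ q) Nat.one_le_two_pow
  have h2 := mul_meas_ge_le_integral_of_nonneg (μ := μ)
    (f := fun x => ‖avg 1 (2 ^ q) (fun y => e (m * y)) x - ∫ y, e (m * y) ∂μ‖ ^ 2)
    (Eventually.of_forall fun x => by positivity) ?_ (η ^ 2)
  · have h3 : μ.real (dev μ 1 (2 ^ q) m η) ≤ μ.real {x | η ^ 2 ≤
        ‖avg 1 (2 ^ q) (fun y => e (m * y)) x - ∫ y, e (m * y) ∂μ‖ ^ 2} := by
      have := h.prob
      refine measureReal_mono ?_ (measure_ne_top μ _)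
      intro x hx
      exact pow_le_pow_left₀ hη.le (le_of_lt hx) 2
    have hη2 : 0 < η ^ 2 := by positivity
    rw [div_div, mul_comm (η ^ 2), ← div_div, le_div_iff₀ hη2, mul_comm]
    refine (mul_le_mul_of_nonneg_left h3 hη2.le).trans (h2.trans (h1.trans (le_of_eq ?_)))
    push_cast
    rfl
  · have := h.prob
    have h4 : Integrable (fun x => avg 1 (2 ^ q) (fun y => e (m * y)) x -
        ∫ y, e (m * y) ∂μ) μ := (integrable_avg h 1 (2 ^ q) m).sub (integrable_const _)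
    refine Integrable.of_bound (h4.1.norm.pow 2) (2 ^ 2) (Eventually.of_forall fun x => ?_)
    rw [Real.norm_of_nonneg (by positivity)]
    apply pow_le_pow_left₀ (norm_nonneg _)
    have h5 : ‖avg 1 (2 ^ q) (fun y => e (m * y)) x‖ ≤ 1 := by
      unfold avg
      rw [norm_div]
      refine div_le_one_of_le₀ ?_ (norm_nonneg _)
      refine (norm_sum_le _ _).trans ?_
      simp only [range_one, sum_singleton]
      refine (norm_sum_le _ _).trans ?_
      simp [norm_e]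
    have h6 : ‖∫ y, e (m * y) ∂μ‖ ≤ 1 := by
      refine (norm_integral_le_integral_norm _).trans ?_
      simp [norm_e]
    exact (norm_sub_le _ _).trans (by linarith)

/-- Bounded partial sums of the correlations give both hypotheses. -/
theorem core_diffusive_cb {μ : Measure ℝ} (h : Inv23 μ) (h0 : ∀ x, μ {x} = 0)
    (hc : ∀ m : ℕ, 1 ≤ m → Summable fun b : ℕ => cb μ m b)
    (m : ℕ) (hm : 1 ≤ m) : ∫ y, e (m * y) ∂μ = 0 := by
  have hcb0 : ∀ m b, 0 ≤ cb μ m b := fun m b => norm_nonneg _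
  refine core_diffusive_gen h h0 (fun m hm η hη => ?_) ⟨1, le_rfl, ∑' b, cb μ 1 b, 1, one_pos,
    fun N hN => ?_⟩ m hm
  · refine ⟨8 * (∑' b, cb μ m b) / η ^ 2, fun q => ?_⟩
    refine (dev_le h (2 ^ q) m Nat.one_le_two_pow η hη).trans ?_
    push_cast
    gcongr
    exact (hc m hm).sum_le_tsum _ (fun b _ => hcb0 m b)
  · rw [sub_self, Real.rpow_zero, mul_one]
    exact (hc 1 le_rfl).sum_le_tsum _ (fun b _ => hcb0 1 b)

/-- **Diffusive rigidity.**  If for every `m ≥ 1` the correlations of the character of frequency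
`m` along `×3` are absolutely summable, then the measure is Lebesgue measure. -/
theorem core_diffusive {μ : Measure ℝ} (h : Inv23 μ) (h0 : ∀ x, μ {x} = 0)
    (hc : ∀ m : ℕ, 1 ≤ m → Summable fun b : ℕ =>
      ‖cf μ (m * (3 ^ b - 1)) - (‖cf μ m‖ ^ 2 : ℝ)‖)
    (m : ℕ) (hm : 1 ≤ m) : ∫ y, e (m * y) ∂μ = 0 :=
  core_diffusive_cb h h0 hc m hm

end Helper75.DF
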